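import Pool.Agent.Helper25.LS.Defs

/-!
Project LS (MP_03bcbb_an), packet LS-FD.
-/

set_option autoImplicit false

open Filter Topology Module

noncomputable section

namespace Pool.Agent.Helper56.LS

open Pool.Agent.Helper25.LS

theorem fd : S_FD := by
  intro E _ _ _ X _ _ U A K K' hK hKK' hA
  have hprop : ProperSpace E := FiniteDimensional.proper ℂ E
  -- a uniform bound
  obtain ⟨M, hM0, hM⟩ : ∃ M : ℝ, 0 ≤ M ∧ ∀ᶠ j in (U : Filter ℕ), ∀ v, ‖A j v‖ ≤ M * ‖v‖ := by
    let b := Module.finBasis ℂ E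
    let f : Fin (finrank ℂ E) → (E →L[ℂ] ℂ) := fun k => LinearMap.toContinuousLinearMap (b.coord k)
    have hf : ∀ k v, f k v = b.repr v k := fun k v => rfl
    refine ⟨∑ k, ‖f k‖ * (K * ‖b k‖ + 1), ?_, ?_⟩
    · exact Finset.sum_nonneg fun k _ =>
        mul_nonneg (norm_nonneg _) (by have := mul_nonneg hK (norm_nonneg (b k)); linarith)
    · have h1 : ∀ᶠ j in (U : Filter ℕ), ∀ k, ‖A j (b k)‖ ≤ K * ‖b k‖ + 1 :=
        Filter.eventually_all.2 fun k => hA (b k) 1 one_pos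
      filter_upwards [h1] with j hj v
      have e1 : A j v = ∑ k, f k v • A j (b k) := by
        conv_lhs => rw [← b.sum_repr v]
        rw [map_sum]
        exact Finset.sum_congr rfl fun k _ => by rw [map_smul, hf]
      rw [e1, Finset.sum_mul]
      refine (norm_sum_le _ _).trans (Finset.sum_le_sum fun k _ => ?_)
      rw [norm_smul]
      calc ‖f k v‖ * ‖A j (b k)‖ ≤ (‖f k‖ * ‖v‖) * (K * ‖b k‖ + 1) :=
            mul_le_mul ((f k).le_opNorm v) (hj k) (norm_nonneg _)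
              (mul_nonneg (norm_nonneg _) (norm_nonneg _))
        _ = ‖f k‖ * (K * ‖b k‖ + 1) * ‖v‖ := by ring
  -- the net
  have hd : 0 < K' - K := sub_pos.2 hKK'
  set η : ℝ := (K' - K) / (M + 1) with hη
  have hη0 : 0 < η := div_pos hd (by linarith)
  have hηe : K + η + M * η = K' := by
    rw [hη]; field_simp; ring
  obtain ⟨t, hts, htf, htc⟩ := (isCompact_sphere (0 : E) 1).finite_cover_balls hη0
  have h2 : ∀ᶠ j in (U : Filter ℕ), ∀ v ∈ t, ‖A j v‖ ≤ K * ‖v‖ + η :=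
    (Filter.eventually_all_finite htf).2 fun v _ => hA v η hη0
  filter_upwards [hM, h2] with j hj1 hj2 v
  by_cases hv : v = 0
  · subst hv; simp
  have hvn : 0 < ‖v‖ := norm_pos_iff.2 hv
  set w : E := ((‖v‖⁻¹ : ℝ) : ℂ) • v with hw
  have hwn : ‖w‖ = 1 := by
    rw [hw, norm_smul, Complex.norm_real, norm_inv, norm_norm, inv_mul_cancel₀ hvn.ne']
  have hws : w ∈ Metric.sphere (0 : E) 1 := by simp [hwn]
  obtain ⟨x, hx⟩ := Set.mem_iUnion.1 (htc hws)
  obtain ⟨hxt, hxw⟩ := Set.mem_iUnion.1 hx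
  have hxn : ‖x‖ = 1 := by
    have := hts hxt
    simpa using this
  have hd2 : ‖w - x‖ < η := by rw [← dist_eq_norm]; exact hxw
  have h3 : ‖A j w‖ ≤ K' := by
    have e2 : A j w = A j x + A j (w - x) := by rw [← map_add]; congr 1; abel
    rw [e2]
    have h4 := hj2 x hxt
    have h5 := hj1 (w - x)
    rw [hxn] at h4
    calc ‖A j x + A j (w - x)‖ ≤ ‖A j x‖ + ‖A j (w - x)‖ := norm_add_le _ _
      _ ≤ (K * 1 + η) + M * η := by
        refine add_le_add h4 (h5.trans ?_)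
        exact mul_le_mul_of_nonneg_left hd2.le hM0
      _ = K' := by rw [mul_one, hηe]
  have h6 : v = ((‖v‖ : ℝ) : ℂ) • w := by
    rw [hw, smul_smul, ← Complex.ofReal_mul, mul_inv_cancel₀ hvn.ne', Complex.ofReal_one, one_smul]
  calc ‖A j v‖ = ‖v‖ * ‖A j w‖ := by
        conv_lhs => rw [h6]
        rw [map_smul, norm_smul, Complex.norm_real, norm_norm]
    _ ≤ ‖v‖ * K' := mul_le_mul_of_nonneg_left h3 hvn.le
    _ = K' * ‖v‖ := mul_comm _ _

end Pool.Agent.Helper56.LS
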